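import Pool.Agent.H.MP_c1092b_gt.A

set_option autoImplicit false

namespace Pool.Agent.H.MP_b2bcdc_gt

open Set Topology Filter

variable {L : Type} [ConditionallyCompleteLinearOrder L] [TopologicalSpace L] [OrderTopology L]

def top (z : ℝ → L) : TopologicalSpace ℝ where
  IsOpen U := ∀ x ∈ U, ∃ r, x < r ∧ ∃ N : Set L, IsOpen N ∧ z x ∈ N ∧ (∃ b, Ioi b ⊆ N) ∧
    ∀ y, z y ∈ N → y < r → y ∈ U
  isOpen_univ := fun x _ => ⟨x + 1, by linarith, univ, isOpen_univ, trivial,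
    ⟨z x, subset_univ _⟩, fun _ _ _ => trivial⟩
  isOpen_inter U V hU hV := by
    intro x hx
    obtain ⟨r, h1, N, h2, h3, ⟨b, h4⟩, h5⟩ := hU x hx.1
    obtain ⟨r', h1', N', h2', h3', ⟨b', h4'⟩, h5'⟩ := hV x hx.2
    exact ⟨min r r', lt_min h1 h1', N ∩ N', h2.inter h2', ⟨h3, h3'⟩,
      ⟨max b b', fun y hy => ⟨h4 (max_lt_iff.1 hy).1, h4' (max_lt_iff.1 hy).2⟩⟩,
      fun y hy hr => ⟨h5 y hy.1 (lt_min_iff.1 hr).1, h5' y hy.2 (lt_min_iff.1 hr).2⟩⟩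
  isOpen_sUnion S hS := by
    rintro x ⟨U, hU, hx⟩
    obtain ⟨r, h1, N, h2, h3, h4, h5⟩ := hS U hU x hx
    exact ⟨r, h1, N, h2, h3, h4, fun y h6 h7 => ⟨U, hU, h5 y h6 h7⟩⟩

lemma box_open (z : ℝ → L) {N : Set L} (hN : IsOpen N) (b : L) (hb : Ioi b ⊆ N) (r : ℝ) :
    IsOpen[top z] {y | z y ∈ N ∧ y < r} :=
  fun _ hx => ⟨r, hx.2, N, hN, hx.1, ⟨b, hb⟩, fun _ h1 h2 => ⟨h1, h2⟩⟩

lemma ray_open (z : ℝ → L) (r : ℝ) : IsOpen[top z] {y | y < r} :=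
  fun x hx => ⟨r, hx, univ, isOpen_univ, trivial, ⟨z x, subset_univ _⟩, fun _ _ h2 => h2⟩

lemma pre_open (z : ℝ → L) {N : Set L} (hN : IsOpen N) (b : L) (hb : Ioi b ⊆ N) :
    IsOpen[top z] {y | z y ∈ N} :=
  fun x hx => ⟨x + 1, by linarith, N, hN, hx, ⟨b, hb⟩, fun _ h1 _ => h1⟩

lemma t0 (z : ℝ → L) : @T0Space ℝ (top z) := by
  letI := top z
  refine ⟨fun x y h => le_antisymm ?_ ?_⟩
  · exact not_lt.1 fun h' => lt_irrefl x ((h.mem_open_iff (ray_open z x)).2 h')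
  · exact not_lt.1 fun h' => lt_irrefl y ((h.mem_open_iff (ray_open z y)).1 h')

lemma core (hL : ∀ s : ℕ → L, ∃ b, ∀ n, s n < b) (z : ℝ → L)
    (hz : ∀ a r s, r < s → ∃ y, r < y ∧ y < s ∧ z y = a) (U : Set ℝ) (hU : IsOpen[top z] U)
    (x : ℝ) (hx : x ∈ U) : ∃ V : Set ℝ, IsOpen[top z] V ∧ x ∈ V ∧ V ⊆ U ∧
      ∀ 𝒰 : Set (Set ℝ), (∀ W ∈ 𝒰, IsOpen[top z] W) → U ⊆ ⋃₀ 𝒰 →
        ∃ 𝒱 ⊆ 𝒰, 𝒱.Finite ∧ V ⊆ ⋃₀ 𝒱 := by
  obtain ⟨r, h1, N, h2, h3, ⟨b, h4⟩, h5⟩ := hU x hx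
  obtain ⟨a, c, -, h6, h7⟩ := exists_Icc_mem_subset_of_mem_nhds (h2.mem_nhds h3)
  obtain ⟨b', hb'⟩ := hL fun _ => b
  have hb := hb' 0
  refine ⟨{y | z y ∈ interior (Icc a c) ∪ Ioi b' ∧ y < (x + r) / 2},
    box_open z (isOpen_interior.union isOpen_Ioi) b' subset_union_right _,
    ⟨Or.inl (mem_interior_iff_mem_nhds.2 h6), by linarith⟩, fun y hy => h5 y ?_ ?_,
    fun 𝒰 h8 h9 => ?_⟩
  · rcases hy.1 with h | h
    · exact h7 (interior_subset h)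
    · exact h4 (hb.trans h)
  · linarith [hy.2]
  have key : ∀ w ∈ N, ∃ W ∈ 𝒰, ∃ M : Set L, IsOpen M ∧ w ∈ M ∧ (∃ b, Ioi b ⊆ M) ∧
      ∀ y, z y ∈ M → y < (x + r) / 2 → y ∈ W := by
    intro w hw
    obtain ⟨y, k1, k2, rfl⟩ := hz w ((x + r) / 2) r (by linarith)
    obtain ⟨W, k3, k4⟩ := h9 (h5 y hw k2)
    obtain ⟨s, k5, M, k6, k7, k8, k9⟩ := h8 W k3 y k4
    exact ⟨W, k3, M, k6, k7, k8, fun t k10 k11 => k9 t k10 (by linarith)⟩
  choose! W k1 M k2 k3 k4 k5 using key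
  obtain ⟨e, he⟩ := k4 b' (h4 hb)
  have hT : Icc a c ∪ Icc b' e ⊆ N := union_subset h7 fun w hw => h4 (hb.trans_le hw.1)
  obtain ⟨t, ht, ht'⟩ := (isCompact_Icc.union isCompact_Icc).elim_nhds_subcover M
    fun w hw => (k2 w (hT hw)).mem_nhds (k3 w (hT hw))
  refine ⟨W '' insert b' t, ?_, (t.finite_toSet.insert b').image W, fun y hy => ?_⟩
  · rintro _ ⟨w, rfl | hw, rfl⟩
    · exact k1 _ (h4 hb)
    · exact k1 _ (hT (ht w hw))
  · by_cases h : z y ∈ Icc a c ∪ Icc b' e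
    · obtain ⟨w, hw, hw'⟩ := mem_iUnion₂.1 (ht' h)
      exact ⟨_, ⟨w, Or.inr hw, rfl⟩, k5 w (hT (ht w hw)) y hw' hy.2⟩
    · refine ⟨_, ⟨b', Or.inl rfl, rfl⟩, k5 b' (h4 hb) y (he ?_) hy.2⟩
      rcases hy.1 with h' | h'
      · exact absurd (Or.inl (interior_subset h')) h
      · exact not_le.1 fun h'' => h (Or.inr ⟨le_of_lt h', h''⟩)

lemma irr (hL : ∀ s : ℕ → L, ∃ b, ∀ n, s n < b) (z : ℝ → L)
    (hz : ∀ a r s, r < s → ∃ y, r < y ∧ y < s ∧ z y = a) : @IsIrreducible ℝ (top z) univ := by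
  refine ⟨univ_nonempty, ?_⟩
  rintro U V hU hV ⟨x, -, hx⟩ ⟨x', -, hx'⟩
  obtain ⟨r, -, N, -, -, ⟨b, h4⟩, h5⟩ := hU x hx
  obtain ⟨r', -, N', -, -, ⟨b', h4'⟩, h5'⟩ := hV x' hx'
  obtain ⟨c, hc⟩ := hL fun _ => max b b'
  obtain ⟨y, -, h6, rfl⟩ := hz c (min r r' - 1) (min r r') (by linarith)
  exact ⟨y, trivial, h5 y (h4 (max_lt_iff.1 (hc 0)).1) (lt_min_iff.1 h6).1,
    h5' y (h4' (max_lt_iff.1 (hc 0)).2) (lt_min_iff.1 h6).2⟩

lemma bdd (hL : ∀ s : ℕ → L, ∃ b, ∀ n, s n < b) (z : ℝ → L) {K : Set ℝ}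
    (hK : @IsCompact ℝ (top z) K) : ∃ b, ∀ x ∈ K, z x ≤ b := by
  letI := top z
  by_contra hcon
  push Not at hcon
  let S : Set ℝ := {r | ∀ b, ∃ x ∈ K, b < z x ∧ r ≤ x}
  have hS1 : S.Nonempty := by
    by_contra h
    have h1 : ∀ n : ℕ, ∃ b, ∀ x ∈ K, b < z x → x < -(n : ℝ) := by
      intro n
      by_contra h2
      push Not at h2
      exact h ⟨-(n : ℝ), h2⟩
    choose b hb using h1
    obtain ⟨c, hc⟩ := hL b
    obtain ⟨x, hx, hx'⟩ := hcon c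
    obtain ⟨n, hn⟩ := exists_nat_gt (-x)
    linarith [hb n x hx ((hc n).trans hx')]
  have hS2 : BddAbove S := by
    obtain ⟨n, hn⟩ := hK.elim_directed_cover (fun n : ℕ => {y | y < (n : ℝ)})
      (fun n => ray_open z n) (fun x _ => mem_iUnion.2 (exists_nat_gt x))
      (Monotone.directed_le fun n m h y (hy : y < (n : ℝ)) =>
        show y < (m : ℝ) from lt_of_lt_of_le hy (Nat.cast_le.2 h))
    refine ⟨n, fun r hr => ?_⟩
    obtain ⟨x, h1, -, h2⟩ := hr (z 0)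
    exact h2.trans (le_of_lt (hn h1))
  have h1 : ∀ n : ℕ, ∃ b, ∀ x ∈ K, b < z x → x < sSup S + 1 / ((n : ℝ) + 1) := by
    intro n
    by_contra h2
    push Not at h2
    have := le_csSup hS2 (show sSup S + 1 / ((n : ℝ) + 1) ∈ S from h2)
    linarith [Nat.one_div_pos_of_nat (α := ℝ) (n := n)]
  choose b hb using h1
  obtain ⟨c, hc⟩ := hL b
  obtain ⟨c', hc'⟩ := hL fun _ => max c (z (sSup S))
  have h2 : ∀ n : ℕ, ∃ x ∈ K, c' < z x ∧ sSup S - 1 / ((n : ℝ) + 1) ≤ x := by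
    intro n
    obtain ⟨r, h3, h4⟩ := exists_lt_of_lt_csSup hS1 (show sSup S - 1 / ((n : ℝ) + 1) < sSup S by
      linarith [Nat.one_div_pos_of_nat (α := ℝ) (n := n)])
    obtain ⟨x, h5, h6, h7⟩ := h3 c'
    exact ⟨x, h5, h6, h4.le.trans h7⟩
  choose x h3 h4 h5 using h2
  obtain ⟨d, hd⟩ := hL fun n => z (x n)
  have h6 : (K ∩ ⋂ n : ℕ, ({y | z y ∈ (Icc c' d)ᶜ} ∪
      {y | y < sSup S - 1 / ((n : ℝ) + 1)})ᶜ).Nonempty := by
    by_contra hcon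
    obtain ⟨n, hn⟩ := hK.elim_directed_family_closed _ (fun n =>
      ((pre_open z isClosed_Icc.isOpen_compl d fun _ h h' => not_le.2 h h'.2).union
        (ray_open z _)).isClosed_compl) (not_nonempty_iff_eq_empty.1 hcon)
      (directed_of_isDirected_le fun n m h => compl_subset_compl.2 (union_subset_union_right _
        fun y (hy : y < _) => show y < _ from
          lt_of_lt_of_le hy (sub_le_sub_left (Nat.one_div_le_one_div h) _)))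
    refine (hn ▸ ⟨h3 n, ?_⟩ : x n ∈ (∅ : Set ℝ))
    rintro (h | h)
    · exact h ⟨(h4 n).le, (hd n).le⟩
    · exact not_le.2 h (h5 n)
  obtain ⟨y, h7, h8⟩ := h6
  have h9 : ∀ n : ℕ, z y ∈ Icc c' d ∧ sSup S - 1 / ((n : ℝ) + 1) ≤ y := fun n => by
    have := mem_iInter.1 h8 n
    simp only [mem_compl_iff, mem_union, mem_ofPred_eq, not_or, not_not, not_lt] at this
    exact this
  have h10 := (max_lt_iff.1 ((hc' 0).trans_le (h9 0).1.1))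
  have h11 : y = sSup S := by
    refine le_antisymm (le_of_forall_pos_le_add fun e he => ?_)
      (le_of_forall_pos_le_add fun e he => ?_) <;>
    obtain ⟨n, hn⟩ := exists_nat_one_div_lt he
    · linarith [hb n y h7 ((hc n).trans h10.1)]
    · linarith [(h9 n).2]
  exact lt_irrefl _ (h11 ▸ h10.2)

lemma exists_z (A : Type) [Nonempty A] (hA : Cardinal.mk A ≤ Cardinal.aleph 1) :
    ∃ z : ℝ → A, ∀ a r s, r < s → ∃ y, r < y ∧ y < s ∧ z y = a := by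
  let S : AddSubgroup ℝ := (Rat.castHom ℝ).toAddMonoidHom.range
  have h1 : Countable S := (countable_range (fun q : ℚ => (q : ℝ))).to_subtype
  have h2 : Uncountable (ℝ ⧸ S) := by
    rw [← not_countable_iff]
    intro h
    exact not_countable
      ((AddSubgroup.addGroupEquivQuotientProdAddSubgroup (s := S)).countable_iff.2 inferInstance)
  obtain ⟨f⟩ := (Cardinal.le_def _ _).1 (hA.trans (Cardinal.aleph1_le_mk (ℝ ⧸ S)))
  refine ⟨fun x => Function.invFun f (x : ℝ ⧸ S), fun a r s h => ?_⟩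
  obtain ⟨t, ht⟩ := QuotientAddGroup.mk_surjective (f a)
  obtain ⟨q, h3, h4⟩ := exists_rat_btwn (sub_lt_sub_right h t)
  refine ⟨t + q, by linarith, by linarith, ?_⟩
  have : ((t + q : ℝ) : ℝ ⧸ S) = f a := by
    rw [← ht]; exact QuotientAddGroup.mk_add_of_mem t ⟨q, rfl⟩
  simp only [this]
  exact Function.leftInverse_invFun f.injective a

end Pool.Agent.H.MP_b2bcdc_gt
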